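import Pool.Agent.Q210.RB.Base
import Pool.Agent.Q150.WR.ZPR

/-!
# Characters of a regular wreath product over families with values in disjoint sets
-/

set_option autoImplicit false

open scoped Classical

noncomputable section

namespace Pool.Agent.Q210.RB

open Pool.Agent.Helper884
open Pool.Agent.H254R3.IN hiding NN
open Pool.Agent.Q17.WR
open Pool.Agent.Q17.DC
open Pool.Agent.Q17.AM
open Pool.Agent.Q17.RB
open Pool.Agent.Q17.TC (t_HOM)

variable {G A : Type} [Group G] [Group A] [Fintype A]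

/-- the shifted family -/
def shf {X : Type} (f : A → X) (a : A) : A → X := fun ω => f (a * ω)

theorem nca_base (f : A → G → ℂ) (m : A → G) :
    nca f (⟨m, 1⟩ : Wr G A A) = ∑ a : A, prf (shf f a) m := by
  unfold nca
  rw [if_pos rfl]
  rfl

theorem nca_off (f : A → G → ℂ) (x : Wr G A A) (hx : x.right ≠ 1) : nca f x = 0 := by
  unfold nca
  rw [if_neg hx]

omit [Group G] in
theorem prf_shf (f : A → G → ℂ) (a : A) (m : A → G) :
    prf (shf f a) m = prf f (fun ω => m (a⁻¹ * ω)) := by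
  unfold prf shf
  rw [← Equiv.prod_comp (Equiv.mulLeft a) (fun ω => f ω (m (a⁻¹ * ω)))]
  refine Finset.prod_congr rfl fun ω _ => ?_
  rw [Equiv.coe_mulLeft, inv_mul_cancel_left]

theorem nca_one (f : A → G → ℂ) : nca f (1 : Wr G A A) = (Fintype.card A : ℂ) * ∏ ω, f ω 1 := by
  have h1 : ∀ a : A, prf (fun ω => f (a * ω)) ((1 : Wr G A A).left) = ∏ ω, f ω 1 := by
    intro a
    exact Equiv.prod_comp (Equiv.mulLeft a) (fun ω => f ω 1)
  unfold nca
  rw [if_pos SemidirectProduct.one_right, Finset.sum_congr rfl fun a _ => h1 a, Finset.sum_const,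
    Finset.card_univ, nsmul_eq_mul]

theorem nca_cl (f : A → G → ℂ) (hf : ∀ ω, IsIrr (f ω)) (x y : Wr G A A) :
    nca f (y * x * y⁻¹) = nca f x := by
  unfold nca
  by_cases hx : x.right = 1
  · rw [if_pos hx, if_pos ((cj_rt1 y x).2 hx)]
    have h1 : ∀ a : A, prf (fun ω => f (a * ω)) (y * x * y⁻¹).left =
        (fun b => prf (fun ω => f (b * ω)) x.left) (a * y.right) := by
      intro a
      show ∏ ω, f (a * ω) ((y * x * y⁻¹).left ω) = ∏ ω, f (a * y.right * ω) (x.left ω)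
      rw [← Equiv.prod_comp (Equiv.mulLeft y.right)
        (fun ω => f (a * ω) ((y * x * y⁻¹).left ω))]
      refine Finset.prod_congr rfl fun ω _ => ?_
      rw [Equiv.coe_mulLeft, cj_lf y x hx, (hf _).conj, inv_mul_cancel_left, mul_assoc]
    rw [Finset.sum_congr rfl fun a _ => h1 a]
    exact Equiv.sum_comp (Equiv.mulRight y.right) (fun b => prf (fun ω => f (b * ω)) x.left)
  · rw [if_neg hx, if_neg fun h => hx ((cj_rt1 y x).1 h)]

section B

variable [Fintype G]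

/-- the wreath product is finite -/
@[instance_reducible]
def fW : Fintype (Wr G A A) :=
  Fintype.ofEquiv ((A → G) × A) (SemidirectProduct.equivProd).symm

attribute [local instance] fW

theorem sum_W (F : Wr G A A → ℂ) :
    ∑ x : Wr G A A, F x = ∑ a : A, ∑ m : A → G, F ⟨m, a⟩ := by
  rw [← Equiv.sum_comp (SemidirectProduct.equivProd (N := A → G) (G := A)
    (φ := mulAutArrow)).symm F, Fintype.sum_prod_type_right]
  rfl

omit [Fintype G] in
theorem card_W : Nat.card (Wr G A A) = Fintype.card A * Nat.card (A → G) := by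
  have h : Nat.card (Wr G A A) = Nat.card ((A → G) × A) :=
    Nat.card_congr SemidirectProduct.equivProd
  rw [h, Nat.card_prod, Nat.card_eq_fintype_card (α := A), mul_comm]

theorem cA_ne : (Fintype.card A : ℂ) ≠ 0 := Nat.cast_ne_zero.2 Fintype.card_ne_zero

theorem B_base (F H : Wr G A A → ℂ) (hF : ∀ x : Wr G A A, x.right ≠ 1 → F x = 0) :
    IC.B F H = (Fintype.card A : ℂ)⁻¹ * IC.B (fun m : A → G => F ⟨m, 1⟩)
      (fun m : A → G => H ⟨m, 1⟩) := by
  unfold IC.B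
  rw [sum_W (fun x => F x * H x⁻¹), card_W, Nat.cast_mul, mul_inv, mul_assoc]
  rw [Finset.sum_eq_single (1 : A)]
  · congr 2
    refine Finset.sum_congr rfl fun m _ => ?_
    have h : (⟨m, 1⟩ : Wr G A A)⁻¹ = ⟨m⁻¹, 1⟩ :=
      (map_inv (SemidirectProduct.inl : (A → G) →* Wr G A A) m).symm
    rw [h]
  · intro b _ hb
    refine Finset.sum_eq_zero fun m _ => ?_
    rw [hF ⟨m, b⟩ hb, zero_mul]
  · intro h
    exact absurd (Finset.mem_univ _) h

theorem B_shf (f : A → G → ℂ) (a : A) (H : Wr G A A → ℂ)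
    (hH : ∀ x y : Wr G A A, H (y * x * y⁻¹) = H x) :
    IC.B (prf (shf f a)) (fun m : A → G => H ⟨m, 1⟩) =
      IC.B (prf f) (fun m : A → G => H ⟨m, 1⟩) := by
  unfold IC.B
  congr 1
  have h1 : ∀ m : A → G, prf (shf f a) m * H ⟨m⁻¹, 1⟩ =
      (fun m : A → G => prf f m * H ⟨m⁻¹, 1⟩) (fun ω => m (a⁻¹ * ω)) := by
    intro m
    have h2 : (⟨(fun ω => m (a⁻¹ * ω))⁻¹, 1⟩ : Wr G A A) =
        ⟨1, a⟩ * ⟨m⁻¹, 1⟩ * (⟨1, a⟩ : Wr G A A)⁻¹ := by
      apply SemidirectProduct.ext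
      · funext ω
        rw [cj_lf _ _ rfl]
        show (m (a⁻¹ * ω))⁻¹ = 1 * (m (a⁻¹ * ω))⁻¹ * 1⁻¹
        rw [one_mul, inv_one, mul_one]
      · exact ((cj_rt1 (⟨1, a⟩ : Wr G A A) ⟨m⁻¹, 1⟩).2 rfl).symm
    show _ = prf f (fun ω => m (a⁻¹ * ω)) * H ⟨(fun ω => m (a⁻¹ * ω))⁻¹, 1⟩
    rw [h2, hH, prf_shf]
  rw [Finset.sum_congr rfl fun m _ => h1 m]
  exact Equiv.sum_comp ((Equiv.mulLeft a).arrowCongr (Equiv.refl G))
    (fun m : A → G => prf f m * H ⟨m⁻¹, 1⟩)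

/-- Frobenius reciprocity -/
theorem frob (f : A → G → ℂ) (H : Wr G A A → ℂ)
    (hH : ∀ x y : Wr G A A, H (y * x * y⁻¹) = H x) :
    IC.B (nca f) H = IC.B (prf f) (fun m : A → G => H ⟨m, 1⟩) := by
  rw [B_base (nca f) H (nca_off f)]
  have h1 : (fun m : A → G => nca f (⟨m, 1⟩ : Wr G A A)) = ∑ a : A, prf (shf f a) := by
    funext m
    rw [nca_base, Finset.sum_apply]
  rw [h1, IC.B_sum_left, Finset.sum_congr rfl fun a _ => B_shf f a H hH, Finset.sum_const,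
    Finset.card_univ, nsmul_eq_mul, ← mul_assoc, inv_mul_cancel₀ cA_ne, one_mul]

omit [Group A] in
theorem B_pp (hZ : S_ZPR) (f f' : A → G → ℂ) (hf : ∀ ω, IsIrr (f ω))
    (hf' : ∀ ω, IsIrr (f' ω)) : IC.B (prf f) (prf f') = if f = f' then 1 else 0 := by
  obtain ⟨ha, -, hc⟩ := hZ G A
  have h := IC.B_irr (chi := prf f) (psi := prf f') (ha f hf) (ha f' hf')
  rw [h]
  by_cases hff : f = f'
  · rw [if_pos hff, if_pos (congrArg prf hff)]
  · rw [if_neg hff, if_neg fun hp => hff (hc f f' hf hf' hp)]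

theorem B_nca_base (hZ : S_ZPR) (f f' : A → G → ℂ) (hf : ∀ ω, IsIrr (f ω))
    (hf' : ∀ ω, IsIrr (f' ω)) : IC.B (prf f') (fun m : A → G => nca f (⟨m, 1⟩ : Wr G A A)) =
      ∑ a : A, if shf f a = f' then 1 else 0 := by
  have h1 : (fun m : A → G => nca f (⟨m, 1⟩ : Wr G A A)) = ∑ a : A, prf (shf f a) := by
    funext m
    rw [nca_base, Finset.sum_apply]
  rw [IC.B_comm, h1, IC.B_sum_left]
  exact Finset.sum_congr rfl fun a _ => B_pp hZ _ _ (fun ω => hf _) hf'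

theorem nca_norm (hZ : S_ZPR) (f : A → G → ℂ) (hf : ∀ ω, IsIrr (f ω))
    (hn : ∀ a : A, shf f a = f → a = 1) : IC.B (nca f) (nca f) = 1 := by
  rw [frob f _ (nca_cl f hf), B_nca_base hZ f f hf hf, Finset.sum_eq_single 1]
  · rw [if_pos]
    funext ω
    unfold shf
    rw [one_mul]
  · intro b _ hb
    rw [if_neg fun h => hb (hn b h)]
  · intro h
    exact absurd (Finset.mem_univ _) h

/-- the restriction to the base group has natural multiplicities -/
theorem mult_base (hZ : S_ZPR) (f : A → G → ℂ) (hf : ∀ ω, IsIrr (f ω)) (χ : Wr G A A → ℂ)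
    (hχ : IsIrr χ) : ∃ n : ℕ, IC.B (prf f) (fun m : A → G => χ ⟨m, 1⟩) = n := by
  obtain ⟨V, _, _, _, ρ, -, rfl⟩ := hχ
  obtain ⟨U, _, _, _, σ, -, hσ⟩ := (hZ G A).1 f hf
  let τ : Representation ℂ (A → G) V :=
    ρ.comp (SemidirectProduct.inl : (A → G) →* Wr G A A)
  let S : Submodule ℂ (V →ₗ[ℂ] U) :=
    { carrier := {v | ∀ x : A → G, σ x ∘ₗ v = v ∘ₗ τ x}
      add_mem' := by
        intro a b ha hb k
        rw [LinearMap.comp_add, ha k, hb k, LinearMap.add_comp]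
      zero_mem' := by
        intro k
        rw [LinearMap.comp_zero, LinearMap.zero_comp]
      smul_mem' := by
        intro c a ha k
        rw [LinearMap.comp_smul, ha k, LinearMap.smul_comp] }
  have h := t_HOM (A → G) U V σ τ S (fun v => Iff.rfl)
  refine ⟨Module.finrank ℂ S, ?_⟩
  rw [h, hσ]
  rfl

/-- irreducibility -/
theorem nca_irr (hZ : S_ZPR) (f : A → G → ℂ) (hf : ∀ ω, IsIrr (f ω))
    (hn : ∀ a : A, shf f a = f → a = 1) : IsIrr (nca f) := by
  have hcl : IC.IsClass (nca f) := fun x y => nca_cl f hf x y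
  have h1 : ∀ χ : Wr G A A → ℂ, IsIrr χ → ∃ n : ℕ, IC.B (nca f) χ = n := by
    intro χ hχ
    obtain ⟨n, hn⟩ := mult_base hZ f hf χ hχ
    refine ⟨n, ?_⟩
    rw [frob f χ (fun x y => hχ.conj x y), hn]
  let N : (Wr G A A → ℂ) → ℕ := fun χ => if h : IsIrr χ then (h1 χ h).choose else 0
  have hN : ∀ χ : Wr G A A → ℂ, IsIrr χ → IC.B (nca f) χ = N χ := by
    intro χ hχ
    have h2 : N χ = (h1 χ hχ).choose := by
      show (if h : IsIrr χ then (h1 χ h).choose else 0) = _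
      rw [dif_pos hχ]
    rw [h2]
    exact (h1 χ hχ).choose_spec
  have h2 : ∑ χ ∈ IC.Irr (Wr G A A), N χ ^ 2 = 1 := by
    have h3 := IC.B_expand (nca f) (nca f) hcl
    rw [nca_norm hZ f hf hn] at h3
    have h4 : (1 : ℂ) = ((∑ χ ∈ IC.Irr (Wr G A A), N χ ^ 2 : ℕ) : ℂ) := by
      rw [h3, Nat.cast_sum]
      refine Finset.sum_congr rfl fun χ hχ => ?_
      have hχ' : IsIrr χ := IC.mem_Irr.1 hχ
      rw [IC.B_comm χ (nca f), hN χ hχ', Nat.cast_pow, sq]
    exact_mod_cast h4.symm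
  obtain ⟨χ₀, hχ₀, hne⟩ : ∃ χ₀ ∈ IC.Irr (Wr G A A), N χ₀ ≠ 0 := by
    by_contra hcon
    push Not at hcon
    rw [Finset.sum_eq_zero fun χ hχ => by rw [hcon χ hχ]; rfl] at h2
    exact absurd h2 (by norm_num)
  have h5 := Finset.add_sum_erase (IC.Irr (Wr G A A)) (fun χ => N χ ^ 2) hχ₀
  rw [h2] at h5
  have h6 : 1 ≤ N χ₀ ^ 2 := Nat.one_le_iff_ne_zero.2 (pow_ne_zero 2 hne)
  have h7 : ∑ χ ∈ (IC.Irr (Wr G A A)).erase χ₀, N χ ^ 2 = 0 := by omega
  have h8 : N χ₀ ^ 2 = 1 := by omega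
  have h9 : N χ₀ = 1 := by
    rwa [Nat.pow_eq_one, or_iff_left (by norm_num)] at h8
  have hχ₀' : IsIrr χ₀ := IC.mem_Irr.1 hχ₀
  have h10 : nca f = χ₀ := by
    rw [IC.expand (nca f) hcl, Finset.sum_eq_single χ₀]
    · rw [hN χ₀ hχ₀', h9, Nat.cast_one, one_smul]
    · intro χ hχ hne'
      have h11 := (Finset.sum_eq_zero_iff.1 h7) χ (Finset.mem_erase.2 ⟨hne', hχ⟩)
      have h12 : N χ = 0 := (pow_eq_zero_iff (two_ne_zero)).1 h11
      rw [hN χ (IC.mem_Irr.1 hχ), h12, Nat.cast_zero, zero_smul]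
    · intro h
      exact absurd hχ₀ h
  rw [h10]
  exact hχ₀'

/-- equal induced characters come from shifted families -/
theorem nca_eq (hZ : S_ZPR) (f f' : A → G → ℂ) (hf : ∀ ω, IsIrr (f ω))
    (hf' : ∀ ω, IsIrr (f' ω)) (h : nca f = nca f') : ∃ a : A, f' = shf f a := by
  by_contra hcon
  have h1 := B_nca_base hZ f f' hf hf'
  have h2 := B_nca_base hZ f' f' hf' hf'
  rw [h, h2] at h1
  have h3 : ∑ a : A, (if shf f a = f' then (1 : ℂ) else 0) = 0 := by
    refine Finset.sum_eq_zero fun a _ => ?_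
    rw [if_neg]
    intro hc
    exact hcon ⟨a, hc.symm⟩
  rw [h3] at h1
  have h4 : ∑ a : A, (if shf f' a = f' then (1 : ℂ) else 0) =
      ((∑ a : A, (if shf f' a = f' then 1 else 0) : ℕ) : ℂ) := by
    push_cast
    rfl
  rw [h4, Nat.cast_eq_zero, Finset.sum_eq_zero_iff] at h1
  have h5 := h1 1 (Finset.mem_univ _)
  rw [if_pos] at h5
  · exact one_ne_zero h5
  · funext ω
    unfold shf
    rw [one_mul]

end B

/-- JOB FXI -/
theorem t_FXI : S_ZPR → S_FXI := by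
  intro hZ G A _ _ _ _ β hβ hd
  have key : ∀ (f f' : A → G → ℂ), (∀ ω, f ω ∈ β ω) → (∀ ω, f' ω ∈ β ω) → ∀ a : A,
      f' = shf f a → a = 1 := by
    intro f f' hf hf' a ha
    by_contra hne
    have h1 : f' 1 = f a := by
      rw [ha]
      unfold shf
      rw [mul_one]
    exact Set.disjoint_left.1 (hd a 1 hne) (hf a) (h1 ▸ hf' 1)
  refine ⟨fun f hf => nca_irr hZ f (fun ω => hβ ω _ (hf ω)) fun a ha => key f f hf hf a ha.symm,
    fun f f' hf hf' h => ?_⟩
  obtain ⟨a, ha⟩ := nca_eq hZ f f' (fun ω => hβ ω _ (hf ω)) (fun ω => hβ ω _ (hf' ω)) h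
  have h1 := key f f' hf hf' a ha
  rw [ha, h1]
  funext ω
  unfold shf
  rw [one_mul]

end Pool.Agent.Q210.RB
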