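import Pool.Agent.Q210.RB.FXI
import Pool.Agent.H254R3.IN.PI

/-!
# The block of a regular wreath product over different blocks with the same defect group
-/

set_option autoImplicit false

open scoped Classical

noncomputable section

namespace Pool.Agent.Q210.RB

open Pool.Agent.Helper884
open Pool.Agent.H254R3.IN hiding NN
open Pool.Agent.Q17.WR
open Pool.Agent.Q17.DC
open Pool.Agent.Q17.AM
open Pool.Agent.Q17.RB

attribute [local instance] fW

section basics

variable {G : Type} [Group G] [Fintype G] {O : ValuationSubring ℂ}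

theorem red_prod {ι : Type} (s : Finset ι) (f : ι → ℂ)
    (h : ∀ i ∈ s, f i ∈ O) : red O (∏ i ∈ s, f i) = ∏ i ∈ s, red O (f i) := by
  induction s using Finset.induction_on with
  | empty => simpa using red_one
  | insert a s ha ih =>
    have h1 : ∀ i ∈ s, f i ∈ O := fun i hi => h i (Finset.mem_insert_of_mem hi)
    rw [Finset.prod_insert ha, Finset.prod_insert ha,
      red_mul (h a (Finset.mem_insert_self a s)) (prod_mem h1), ih h1]

/-- blocks with a common member are equal -/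
theorem block_eq {B B' : Set (G → ℂ)} (hB : IsBlock O B) (hB' : IsBlock O B') {χ : G → ℂ}
    (h : χ ∈ B) (h' : χ ∈ B') : B = B' := by
  ext ψ
  constructor
  · intro hψ
    by_contra hcon
    obtain ⟨x, hx⟩ := hB'.exists_ne h' (hB.irr ψ hψ) hcon
    exact hx (hB.red_eq h hψ x)
  · intro hψ
    by_contra hcon
    obtain ⟨x, hx⟩ := hB.exists_ne h (hB'.irr ψ hψ) hcon
    exact hx (hB'.red_eq h' hψ x)

end basics

variable {G A : Type} [Group G] [Fintype G] [Group A] [Fintype A]

omit [Fintype G] in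
theorem nca_val (f : A → G → ℂ) (x : Wr G A A) (hx : x.right = 1) :
    nca f x = ∑ a : A, ∏ ω, f ω (x.left (a * ω)) := by
  unfold nca
  rw [if_pos hx, ← Equiv.sum_comp (Equiv.inv A) (fun a => prf (fun ω => f (a * ω)) x.left)]
  refine Finset.sum_congr rfl fun a _ => ?_
  have h := prf_shf f a⁻¹ x.left
  rw [inv_inv] at h
  exact h

/-- the class function with the coefficients of the block idempotent -/
def EX (β : A → Set (G → ℂ)) (x : Wr G A A) : ℂ :=
  if x.right = 1 then ∑ a : A, ∏ ω, blockCoeff (β ω) (x.left (a * ω)) else 0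

theorem bc_FX (β : A → Set (G → ℂ)) (hβ : ∀ ω, ∀ χ ∈ β ω, IsIrr χ)
    (hij : ∀ f f' : A → G → ℂ, (∀ ω, f ω ∈ β ω) → (∀ ω, f' ω ∈ β ω) → nca f = nca f' → f = f')
    (x : Wr G A A) : blockCoeff (FX β) x = EX β x := by
  let S : A → Finset (G → ℂ) := fun ω => (IC.Irr G).filter (· ∈ β ω)
  have hS : ∀ ω χ, χ ∈ S ω ↔ χ ∈ β ω := by
    intro ω χ
    simp only [S, Finset.mem_filter, mem_Irr]
    exact ⟨fun h => h.2, fun h => ⟨hβ ω χ h, h⟩⟩
  have hP : ∀ f : A → G → ℂ, f ∈ Fintype.piFinset S ↔ ∀ ω, f ω ∈ β ω := by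
    intro f
    rw [Fintype.mem_piFinset]
    exact forall_congr' fun ω => hS ω (f ω)
  have hFX : FX β = ((Fintype.piFinset S).image (nca (G := G) (A := A)) : Set (Wr G A A → ℂ)) := by
    ext χ
    rw [Finset.coe_image]
    constructor
    · rintro ⟨f, hf, rfl⟩
      exact ⟨f, Finset.mem_coe.2 ((hP f).2 hf), rfl⟩
    · rintro ⟨f, hf, rfl⟩
      exact ⟨f, (hP f).1 (Finset.mem_coe.1 hf), rfl⟩
  unfold blockCoeff EX
  rw [hFX, finsum_mem_coe_finset, Finset.sum_image (fun f hf f' hf' h =>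
    hij f f' ((hP f).1 hf) ((hP f').1 hf') h)]
  by_cases hx : x.right = 1
  · rw [if_pos hx]
    have hxi : x⁻¹.right = 1 := by
      rw [SemidirectProduct.inv_right, hx, inv_one]
    have h1 : ∀ f : A → G → ℂ, nca f 1 * nca f x⁻¹ =
        (Fintype.card A : ℂ) * ∑ a : A, ∏ ω, (f ω 1 * f ω (x.left (a * ω))⁻¹) := by
      intro f
      rw [nca_one, nca_val f _ hxi, mul_assoc, Finset.mul_sum]
      congr 1
      refine Finset.sum_congr rfl fun a _ => ?_
      rw [Finset.prod_mul_distrib]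
      congr 1
      refine Finset.prod_congr rfl fun ω _ => ?_
      rw [inv_lf, hx, one_mul]
    rw [Finset.sum_congr rfl fun f _ => h1 f, ← Finset.mul_sum, Finset.sum_comm]
    have h2 : ∀ a : A, ∑ f ∈ Fintype.piFinset S, ∏ ω, (f ω 1 * f ω (x.left (a * ω))⁻¹) =
        (Nat.card (A → G) : ℂ) * ∏ ω, blockCoeff (β ω) (x.left (a * ω)) := by
      intro a
      have h3 := Finset.prod_univ_sum S
        (fun (ω : A) (χ : G → ℂ) => χ 1 * χ (x.left (a * ω))⁻¹)
      rw [← h3]
      have h4 : ∀ ω, ∑ χ ∈ S ω, χ 1 * χ (x.left (a * ω))⁻¹ =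
          (Nat.card G : ℂ) * blockCoeff (β ω) (x.left (a * ω)) := by
        intro ω
        have hG : (Nat.card G : ℂ) ≠ 0 := Nat.cast_ne_zero.2 Nat.card_pos.ne'
        rw [blockCoeff_eq (hβ ω), mul_inv_cancel_left₀ hG]
      rw [Finset.prod_congr rfl fun ω _ => h4 ω, Finset.prod_mul_distrib, Finset.prod_const,
        Finset.card_univ, Nat.card_fun, Nat.cast_pow, Nat.card_eq_fintype_card (α := A)]
    rw [Finset.sum_congr rfl fun a _ => h2 a, ← Finset.mul_sum, card_W, Nat.cast_mul]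
    have hM : (Nat.card (A → G) : ℂ) ≠ 0 := Nat.cast_ne_zero.2 Nat.card_pos.ne'
    have hA : (Fintype.card A : ℂ) ≠ 0 := cA_ne
    field_simp
  · rw [if_neg hx]
    have hxi : x⁻¹.right ≠ 1 := by
      rw [SemidirectProduct.inv_right]
      exact fun h => hx (inv_eq_one.1 h)
    rw [Finset.sum_eq_zero fun f _ => by rw [nca_off f _ hxi, mul_zero], mul_zero]

/-- the indicator function of the class of `x`, restricted to the base group -/
def indY (x : Wr G A A) (y : A → G) : ℂ := if IsConj x (⟨y, 1⟩ : Wr G A A) then 1 else 0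

omit [Fintype G] [Fintype A] in
theorem indY_cl (x : Wr G A A) : IsCl (indY x) := by
  intro g y
  have h1 : IsConj (⟨g, 1⟩ : Wr G A A) ⟨y * g * y⁻¹, 1⟩ := by
    rw [isConj_iff]
    refine ⟨(SemidirectProduct.inl : (A → G) →* Wr G A A) y, ?_⟩
    show (SemidirectProduct.inl : (A → G) →* Wr G A A) y *
      (SemidirectProduct.inl : (A → G) →* Wr G A A) g *
      ((SemidirectProduct.inl : (A → G) →* Wr G A A) y)⁻¹ =
      (SemidirectProduct.inl : (A → G) →* Wr G A A) (y * g * y⁻¹)
    rw [map_mul, map_mul, map_inv]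
  unfold indY
  have h2 : IsConj x (⟨y * g * y⁻¹, 1⟩ : Wr G A A) ↔ IsConj x (⟨g, 1⟩ : Wr G A A) :=
    ⟨fun h => h.trans h1.symm, fun h => h.trans h1⟩
  by_cases h : IsConj x (⟨g, 1⟩ : Wr G A A)
  · rw [if_pos h, if_pos (h2.2 h)]
  · rw [if_neg h, if_neg fun h' => h (h2.1 h')]

omit [Fintype G] [Fintype A] in
theorem indY_mem (O : ValuationSubring ℂ) (x : Wr G A A) (y : A → G) : indY x y ∈ O := by
  unfold indY
  split_ifs
  · exact O.one_mem
  · exact O.zero_mem

omit [Fintype G] [Fintype A] in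
theorem indY_shift (x : Wr G A A) (y : A → G) (a : A) :
    indY x (fun ω => y (a * ω)) = indY x y := by
  have h1 : IsConj (⟨y, 1⟩ : Wr G A A) ⟨fun ω => y (a * ω), 1⟩ := by
    rw [cl1 _ _ rfl]
    exact ⟨rfl, a, fun ω => IsConj.refl _⟩
  have h2 : IsConj x (⟨fun ω => y (a * ω), 1⟩ : Wr G A A) ↔ IsConj x (⟨y, 1⟩ : Wr G A A) :=
    ⟨fun h => h.trans h1.symm, fun h => h.trans h1⟩
  unfold indY
  by_cases h : IsConj x (⟨y, 1⟩ : Wr G A A)
  · rw [if_pos h, if_pos (h2.2 h)]
  · rw [if_neg h, if_neg fun h' => h (h2.1 h')]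

theorem card_cl (x : Wr G A A) (hx : x.right = 1) :
    (Nat.card {y : Wr G A A // IsConj x y} : ℂ) = ∑ y : A → G, indY x y := by
  have e : {y : Wr G A A // IsConj x y} ≃ {y : A → G // IsConj x (⟨y, 1⟩ : Wr G A A)} :=
    { toFun := fun y => ⟨y.1.left, by
        have h := ((cl1 x y.1 hx).1 y.2).1
        have h2 : (⟨y.1.left, 1⟩ : Wr G A A) = y.1 := SemidirectProduct.ext rfl h.symm
        rw [h2]
        exact y.2⟩
      invFun := fun y => ⟨⟨y.1, 1⟩, y.2⟩
      left_inv := fun y => by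
        apply Subtype.ext
        exact SemidirectProduct.ext rfl ((cl1 x y.1 hx).1 y.2).1.symm
      right_inv := fun y => rfl }
  rw [Nat.card_congr e, Nat.card_eq_fintype_card, Fintype.card_subtype, Finset.card_filter,
    Nat.cast_sum]
  refine Finset.sum_congr rfl fun y _ => ?_
  unfold indY
  split_ifs
  · exact Nat.cast_one
  · exact Nat.cast_zero

/-- the central characters on the base group -/
theorem omega_nca (f : A → G → ℂ) (hf : ∀ ω, IsIrr (f ω)) (x : Wr G A A) (hx : x.right = 1) :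
    omega (nca f) x = Om (indY x) (prf f) := by
  have hA : (Fintype.card A : ℂ) ≠ 0 := cA_ne
  have h1 : (Nat.card {y : Wr G A A // IsConj x y} : ℂ) * nca f x =
      (Fintype.card A : ℂ) * ∑ y : A → G, indY x y * prf f y := by
    rw [card_cl x hx, Finset.sum_mul]
    have h2 : ∀ y : A → G, indY x y * nca f x =
        ∑ a : A, indY x y * prf f (fun ω => y (a * ω)) := by
      intro y
      rw [← Finset.mul_sum]
      by_cases h : IsConj x (⟨y, 1⟩ : Wr G A A)
      · have h3 : nca f x = nca f (⟨y, 1⟩ : Wr G A A) := by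
          obtain ⟨c, hc⟩ := isConj_iff.1 h
          rw [← hc, nca_cl f hf]
        rw [h3, nca_val f _ rfl]
        rfl
      · unfold indY
        rw [if_neg h, zero_mul, zero_mul]
    rw [Finset.sum_congr rfl fun y _ => h2 y, Finset.sum_comm]
    have h4 : ∀ a : A, ∑ y : A → G, indY x y * prf f (fun ω => y (a * ω)) =
        ∑ y : A → G, indY x y * prf f y := by
      intro a
      have h5 := Equiv.sum_comp ((Equiv.mulLeft a⁻¹).arrowCongr (Equiv.refl G))
        (fun y : A → G => indY x y * prf f y)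
      rw [← h5]
      refine Finset.sum_congr rfl fun y _ => ?_
      have h6 : ((Equiv.mulLeft a⁻¹).arrowCongr (Equiv.refl G)) y = fun ω => y (a * ω) := by
        funext ω
        show y ((Equiv.mulLeft a⁻¹).symm ω) = y (a * ω)
        rw [Equiv.mulLeft_symm_apply, inv_inv]
      rw [h6, indY_shift]
    rw [Finset.sum_congr rfl fun a _ => h4 a, Finset.sum_const, Finset.card_univ, nsmul_eq_mul]
  unfold omega Om
  rw [h1, nca_one, mul_div_mul_left _ _ hA]
  rfl

omit [Fintype G] [Group A] [Fintype A] in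
theorem isConj_pi (y z : A → G) : IsConj y z ↔ ∀ ω, IsConj (y ω) (z ω) := by
  constructor
  · intro h ω
    obtain ⟨c, rfl⟩ := isConj_iff.1 h
    exact isConj_iff.2 ⟨c ω, rfl⟩
  · intro h
    choose c hc using fun ω => isConj_iff.1 (h ω)
    exact isConj_iff.2 ⟨c, funext hc⟩

omit [Fintype G] [Group A] in
theorem omega_prf (f : A → G → ℂ) (y : A → G) :
    omega (prf f) y = ∏ ω, omega (f ω) (y ω) := by
  have h1 : Nat.card {z : A → G // IsConj y z} = ∏ ω, Nat.card {g : G // IsConj (y ω) g} := by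
    rw [Nat.card_congr (Equiv.subtypeEquivRight fun z => isConj_pi y z),
      Nat.card_congr (Equiv.subtypePiEquivPi
        (p := fun (ω : A) (g : G) => IsConj (y ω) g)), Nat.card_pi]
  unfold omega
  rw [h1, Finset.prod_div_distrib, Finset.prod_mul_distrib, Nat.cast_prod]
  rfl

section red

variable {O : ValuationSubring ℂ}

omit [Group A] in
theorem red_omega_prf (f : A → G → ℂ) (hf : ∀ ω, IsIrr (f ω)) (y : A → G) :
    red O (omega (prf f) y) = ∏ ω, red O (omega (f ω) (y ω)) := by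
  rw [omega_prf, red_prod _ _ fun ω _ => (hf ω).omega_mem O _]

theorem red_omega_nca (hZ : S_ZPR) (f : A → G → ℂ) (hf : ∀ ω, IsIrr (f ω)) (x : Wr G A A)
    (hx : x.right = 1) : red O (omega (nca f) x) =
      ∑ K : ConjClasses (A → G), red O (indY x (rep K)) *
        ∏ ω, red O (omega (f ω) (rep K ω)) := by
  rw [omega_nca f hf x hx, (red_Om ((hZ G A).1 f hf) (indY_cl x) (indY_mem O x)).2]
  exact Finset.sum_congr rfl fun K _ => by rw [red_omega_prf f hf]

theorem red_omega_eq (hZ : S_ZPR) (β : A → Set (G → ℂ)) (hB : ∀ ω, IsBlock O (β ω))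
    (f f' : A → G → ℂ) (hf : ∀ ω, f ω ∈ β ω) (hf' : ∀ ω, f' ω ∈ β ω) (x : Wr G A A) :
    red O (omega (nca f) x) = red O (omega (nca f') x) := by
  by_cases hx : x.right = 1
  · rw [red_omega_nca hZ f (fun ω => (hB ω).irr _ (hf ω)) x hx,
      red_omega_nca hZ f' (fun ω => (hB ω).irr _ (hf' ω)) x hx]
    refine Finset.sum_congr rfl fun K _ => ?_
    congr 1
    exact Finset.prod_congr rfl fun ω _ => (hB ω).red_eq (hf ω) (hf' ω) _
  · unfold omega
    rw [nca_off f x hx, nca_off f' x hx, mul_zero, zero_div, zero_div]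

end red

/-- the right components of the elements of the centraliser of `x` -/
def Ax (x : Wr G A A) : Subgroup A :=
  (Subgroup.centralizer ({x} : Set (Wr G A A))).map (SemidirectProduct.rightHom : Wr G A A →* A)

omit [Fintype G] [Fintype A] in
theorem Ax_conj (x : Wr G A A) (hx : x.right = 1) (a : A) (ha : a ∈ Ax x) (ω : A) :
    IsConj (x.left (a * ω)) (x.left ω) := by
  obtain ⟨y, hy, hya⟩ := Subgroup.mem_map.1 (inv_mem ha)
  have h1 : y * x * y⁻¹ = x := by
    have h2 := Subgroup.mem_centralizer_singleton_iff.1 hy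
    rw [mul_inv_eq_iff_eq_mul]
    exact h2
  have h3 := cj_lf y x hx ω
  rw [h1] at h3
  have h4 : y.right = a⁻¹ := hya
  rw [h4, inv_inv] at h3
  exact isConj_iff.2 ⟨y.left ω, h3.symm⟩

omit [Fintype G] [Fintype A] in
theorem mem_cent_base (x : Wr G A A) (hx : x.right = 1) (m : A → G) :
    (⟨m, 1⟩ : Wr G A A) ∈ Subgroup.centralizer ({x} : Set (Wr G A A)) ↔
      ∀ ω, m ω ∈ Subgroup.centralizer ({x.left ω} : Set G) := by
  simp only [Subgroup.mem_centralizer_singleton_iff]
  constructor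
  · intro h ω
    have h1 := congrArg (fun z : Wr G A A => z.left ω) h
    simp only [mul_lf, hx, inv_one, one_mul] at h1
    exact h1
  · intro h
    apply SemidirectProduct.ext
    · funext ω
      simp only [mul_lf, hx, inv_one, one_mul]
      exact h ω
    · simp only [SemidirectProduct.mul_right, hx, mul_one]

omit [Fintype G] in
theorem card_cent (x : Wr G A A) (hx : x.right = 1) :
    Nat.card (Subgroup.centralizer ({x} : Set (Wr G A A))) =
      Nat.card (Ax x) * ∏ ω, Nat.card (Subgroup.centralizer ({x.left ω} : Set G)) := by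
  let K : Subgroup (Wr G A A) := Subgroup.centralizer ({x} : Set (Wr G A A))
  let φ : K →* A := (SemidirectProduct.rightHom : Wr G A A →* A).comp K.subtype
  have h1 : Nat.card φ.ker * φ.ker.index = Nat.card K := Subgroup.card_mul_index _
  have h2 : φ.ker.index = Nat.card φ.range := Subgroup.index_ker φ
  have h3 : φ.range = Ax x := by
    show ((SemidirectProduct.rightHom : Wr G A A →* A).comp K.subtype).range = _
    rw [MonoidHom.range_comp, Subgroup.range_subtype]
    rfl
  have e : φ.ker ≃ (∀ ω, Subgroup.centralizer ({x.left ω} : Set G)) :=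
    { toFun := fun y ω => ⟨y.1.1.left ω, by
        have hy : y.1.1.right = 1 := y.2
        have h := (mem_cent_base x hx y.1.1.left).1
        have h4 : (⟨y.1.1.left, 1⟩ : Wr G A A) = y.1.1 := SemidirectProduct.ext rfl hy.symm
        rw [h4] at h
        exact h y.1.2 ω⟩
      invFun := fun z => ⟨⟨⟨fun ω => (z ω : G), 1⟩, (mem_cent_base x hx _).2 fun ω => (z ω).2⟩, rfl⟩
      left_inv := fun y => by
        apply Subtype.ext
        apply Subtype.ext
        have hy : y.1.1.right = 1 := y.2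
        exact SemidirectProduct.ext rfl hy.symm
      right_inv := fun z => rfl }
  have h5 : Nat.card φ.ker = ∏ ω, Nat.card (Subgroup.centralizer ({x.left ω} : Set G)) := by
    rw [Nat.card_congr e, Nat.card_pi]
  show Nat.card K = _
  rw [← h1, h2, h3, h5, mul_comm]

omit [Fintype G] in
theorem card_Da (D : Subgroup G) : Nat.card (Da A D) = Nat.card D ^ Fintype.card A := by
  have e : Da A D ≃ (A → D) :=
    { toFun := fun y ω => ⟨y.1.left ω, y.2.2 ω⟩
      invFun := fun z => ⟨⟨fun ω => (z ω : G), 1⟩, rfl, fun ω => (z ω).2⟩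
      left_inv := fun y => by
        apply Subtype.ext
        exact SemidirectProduct.ext rfl y.2.1.symm
      right_inv := fun z => rfl }
  rw [Nat.card_congr e, Nat.card_fun, Nat.card_eq_fintype_card (α := A)]

/-- a subgroup into which all `p`-subgroups of the centraliser are conjugate -/
theorem index_cent {p : ℕ} [Fact p.Prime] (y : G) (D : Subgroup G) (hD : IsPGroup p D)
    (h1 : ∀ d ∈ D, Commute d y)
    (h2 : ∀ R : Subgroup G, IsPGroup p R → (∀ r ∈ R, Commute r y) →
      ∃ g : G, ∀ r ∈ R, g * r * g⁻¹ ∈ D) :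
    ∃ i : ℕ, ¬ p ∣ i ∧ Nat.card (Subgroup.centralizer ({y} : Set G)) = Nat.card D * i := by
  let C : Subgroup G := Subgroup.centralizer ({y} : Set G)
  have hle : D ≤ C := fun d hd => Subgroup.mem_centralizer_singleton_iff.2 (h1 d hd)
  have hDC : IsPGroup p (D.subgroupOf C) :=
    hD.of_injective (Subgroup.subgroupOfEquivOfLe hle).toMonoidHom
      (Subgroup.subgroupOfEquivOfLe hle).injective
  obtain ⟨P, hP⟩ := hDC.exists_le_sylow
  have hcD : Nat.card (D.subgroupOf C) = Nat.card D :=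
    Nat.card_congr (Subgroup.subgroupOfEquivOfLe hle).toEquiv
  obtain ⟨g, hg⟩ := h2 ((P : Subgroup C).map C.subtype)
    (P.isPGroup'.map C.subtype) (by
      intro r hr
      obtain ⟨c, -, rfl⟩ := Subgroup.mem_map.1 hr
      exact Subgroup.mem_centralizer_singleton_iff.1 c.2)
  have hcP : Nat.card (P : Subgroup C) ≤ Nat.card (D.subgroupOf C) := by
    rw [hcD]
    refine Nat.card_le_card_of_injective
      (fun r : (P : Subgroup C) => (⟨g * ((r : C) : G) * g⁻¹,
        hg _ (Subgroup.mem_map.2 ⟨(r : C), r.2, rfl⟩)⟩ : D)) ?_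
    intro r s hrs
    have h3 : g * ((r : C) : G) * g⁻¹ = g * ((s : C) : G) * g⁻¹ := congrArg Subtype.val hrs
    exact Subtype.ext (Subtype.ext (mul_left_cancel (mul_right_cancel h3)))
  have hPe : D.subgroupOf C = (P : Subgroup C) := Subgroup.eq_of_le_of_card_ge hP hcP
  refine ⟨(P : Subgroup C).index, P.not_dvd_index, ?_⟩
  show Nat.card C = _
  rw [← hcD, hPe, Subgroup.card_mul_index]

theorem sylow_Da {p : ℕ} [Fact p.Prime] (x : Wr G A A) (hx : x.right = 1) (D : Subgroup G)
    (hD : IsPGroup p D) (h1 : ∀ ω, ∀ d ∈ D, Commute d (x.left ω))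
    (h2 : ∀ ω, ∀ R : Subgroup G, IsPGroup p R → (∀ r ∈ R, Commute r (x.left ω)) →
      ∃ g : G, ∀ r ∈ R, g * r * g⁻¹ ∈ D)
    (h3 : ¬ p ∣ Nat.card (Ax x)) :
    ∃ Q : Sylow p (Subgroup.centralizer ({x} : Set (Wr G A A))),
      Da A D = (Q : Subgroup (Subgroup.centralizer ({x} : Set (Wr G A A)))).map
        (Subgroup.centralizer ({x} : Set (Wr G A A))).subtype := by
  let K : Subgroup (Wr G A A) := Subgroup.centralizer ({x} : Set (Wr G A A))
  have hle : Da A D ≤ K := by
    intro y hy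
    have h4 : (⟨y.left, 1⟩ : Wr G A A) = y := SemidirectProduct.ext rfl hy.1.symm
    rw [← h4]
    exact (mem_cent_base x hx y.left).2 fun ω =>
      Subgroup.mem_centralizer_singleton_iff.2 (h1 ω _ (hy.2 ω))
  choose i hi hic using fun ω => index_cent (x.left ω) D hD (h1 ω) (h2 ω)
  have hcQ : Nat.card ((Da A D).subgroupOf K) = Nat.card D ^ Fintype.card A := by
    rw [Nat.card_congr (Subgroup.subgroupOfEquivOfLe hle).toEquiv, card_Da]
  have hcK := ((Da A D).subgroupOf K).card_mul_index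
  have hidx : ((Da A D).subgroupOf K).index = Nat.card (Ax x) * ∏ ω, i ω := by
    have h0 : 0 < Nat.card D ^ Fintype.card A := pow_pos Nat.card_pos _
    apply Nat.eq_of_mul_eq_mul_left h0
    rw [hcQ] at hcK
    rw [hcK]
    show Nat.card (Subgroup.centralizer ({x} : Set (Wr G A A))) = _
    rw [card_cent x hx, Finset.prod_congr rfl fun ω _ => hic ω, Finset.prod_mul_distrib,
      Finset.prod_const, Finset.card_univ]
    ring
  obtain ⟨n, hn⟩ := IsPGroup.iff_card.mp hD
  have hP : IsPGroup p ((Da A D).subgroupOf K) := by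
    apply IsPGroup.of_card (n := n * Fintype.card A)
    rw [hcQ, hn, ← pow_mul]
  have hnd : ¬ p ∣ ((Da A D).subgroupOf K).index := by
    rw [hidx]
    intro h
    rcases (Nat.Prime.dvd_mul Fact.out).mp h with h | h
    · exact h3 h
    · obtain ⟨ω, -, hω⟩ := (Prime.dvd_finsetProd_iff
        (Nat.Prime.prime (Fact.out : p.Prime)) _).1 h
      exact hi ω hω
  refine ⟨hP.toSylow hnd, ?_⟩
  change Da A D = ((Da A D).subgroupOf K).map K.subtype
  rw [Subgroup.map_subgroupOf_eq_of_le hle]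

/-- the coefficient vanishes modulo `p` if `p` divides the order of `Ax x` -/
theorem red_EX_zero {p : ℕ} [Fact p.Prime] {O : ValuationSubring ℂ} (hp : (p : ℂ) ∈ O.nonunits)
    (β : A → Set (G → ℂ)) (hB : ∀ ω, IsBlock O (β ω)) (x : Wr G A A) (hx : x.right = 1)
    (h : p ∣ Nat.card (Ax x)) : red O (EX β x) = 0 := by
  have hm : ∀ a : A, ∀ ω ∈ Finset.univ, blockCoeff (β ω) (x.left (a * ω)) ∈ O :=
    fun a ω _ => blockCoeff_mem (hB ω) _
  unfold EX
  rw [if_pos hx, red_sum _ _ fun a _ => prod_mem (hm a)]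
  obtain ⟨b, hb⟩ := exists_prime_orderOf_dvd_card' p h
  have hcb : Nat.card (Subgroup.zpowers (b : A)) = p ^ 1 := by
    rw [Nat.card_zpowers, Subgroup.orderOf_coe, hb, pow_one]
  have hZp : IsPGroup p (Subgroup.zpowers (b : A)) := IsPGroup.of_card hcb
  have hch : CharP (RF O) p := charP_RF hp
  have hF : ∀ a : RF O, p • a = 0 := by
    intro a
    rw [nsmul_eq_mul, CharP.cast_eq_zero, zero_mul]
  rw [sum_fixed hZp hF (fun a : A => red O (∏ ω, blockCoeff (β ω) (x.left (a * ω))))]
  · apply Finset.sum_eq_zero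
    intro a ha
    exfalso
    have h1 := ((@Finset.mem_filter _ _ (_) _ _).1 ha).2 ⟨(b : A), Subgroup.mem_zpowers _⟩
    have h2 : (b : A) * a = a := h1
    have h3 : (b : A) = 1 := mul_eq_right.1 h2
    have h4 : b = 1 := Subtype.ext h3
    rw [h4, orderOf_one] at hb
    exact (Fact.out : p.Prime).one_lt.ne hb
  · rintro ⟨z, hz⟩ a
    show red O (∏ ω, blockCoeff (β ω) (x.left (z * a * ω))) = _
    have hz' : z ∈ Ax x := (Subgroup.zpowers_le.2 b.2) hz
    congr 1
    refine Finset.prod_congr rfl fun ω _ => ?_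
    rw [mul_assoc]
    exact (blockCoeff_cl (hB ω).irr).isConj (Ax_conj x hx z hz' (a * ω))

/-- JOB FXB -/
theorem t_FXB : S_ZPR → S_FXI → S_MMX → S_FXB := by
  intro hZ hI hM G A _ _ _ _ p _ O hp β hB hinj D hD
  have hβ : ∀ ω, ∀ χ ∈ β ω, IsIrr χ := fun ω => (hB ω).irr
  have hdis : ∀ ω ω', ω ≠ ω' → Disjoint (β ω) (β ω') := by
    intro ω ω' hne
    rw [Set.disjoint_left]
    intro χ h h'
    exact hne (hinj (block_eq (hB ω) (hB ω') h h'))
  obtain ⟨hirr, hij⟩ := hI G A β hβ hdis
  have hFX : ∀ χ ∈ FX β, IsIrr χ := by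
    rintro _ ⟨f, hf, rfl⟩
    exact hirr f hf
  have hbc : ∀ x : Wr G A A, blockCoeff (FX β) x = EX β x := bc_FX β hβ hij
  have hEcl : IsCl (blockCoeff (FX β)) := blockCoeff_cl hFX
  have hEm : ∀ x : Wr G A A, blockCoeff (FX β) x ∈ O := by
    intro x
    rw [hbc]
    unfold EX
    split_ifs
    · exact sum_mem' _ _ fun a _ => prod_mem fun ω _ => blockCoeff_mem (hB ω) _
    · exact O.zero_mem
  choose f₀ h0 using fun ω => (hB ω).nonempty
  have hf0 : ∀ ω, IsIrr (f₀ ω) := fun ω => hβ ω _ (h0 ω)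
  have hm0 : nca f₀ ∈ FX β := ⟨f₀, h0, rfl⟩
  have hi0 : IsIrr (nca f₀) := hirr f₀ h0
  have hred : ∀ χ ∈ FX β, ∀ x : Wr G A A, red O (omega χ x) = red O (omega (nca f₀) x) := by
    rintro _ ⟨f, hf, rfl⟩ x
    exact red_omega_eq hZ β hB f f₀ hf h0 x
  refine ⟨⟨nca f₀, hi0, ?_⟩, ?_, ?_⟩
  · ext χ
    constructor
    · intro hχ
      refine ⟨hFX χ hχ, fun x => ?_⟩
      rw [← red_eq_iff ((hFX χ hχ).omega_mem O x) (hi0.omega_mem O x)]
      exact hred χ hχ x
    · rintro ⟨hχi, hx⟩
      have h1 := (red_Om (O := O) hχi hEcl hEm).2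
      have h2 := (red_Om (O := O) hi0 hEcl hEm).2
      have h3 : red O (Om (blockCoeff (FX β)) χ) = red O (Om (blockCoeff (FX β)) (nca f₀)) := by
        rw [h1, h2]
        refine Finset.sum_congr rfl fun K _ => ?_
        rw [(red_eq_iff (hχi.omega_mem O _) (hi0.omega_mem O _)).mpr (hx _)]
      rw [Om_blockCoeff hFX hχi, Om_blockCoeff hFX hi0, if_pos hm0, red_one] at h3
      by_contra hcon
      rw [if_neg hcon, red_zero] at h3
      exact zero_ne_one h3
  · -- a defect class
    have h1 := (red_Om (O := O) hi0 hEcl hEm).2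
    rw [Om_blockCoeff hFX hi0, if_pos hm0, red_one] at h1
    have h2 : ∑ K : ConjClasses (Wr G A A), red O (blockCoeff (FX β) (rep K)) *
        red O (omega (nca f₀) (rep K)) ≠ 0 := by
      rw [← h1]
      exact one_ne_zero
    obtain ⟨K, -, hK⟩ := Finset.exists_ne_zero_of_sum_ne_zero h2
    obtain ⟨x, hxK⟩ : ∃ x : Wr G A A, x = rep K := ⟨_, rfl⟩
    rw [← hxK] at hK
    have hE1 : red O (blockCoeff (FX β) x) ≠ 0 := left_ne_zero_of_mul hK
    have ho1 : red O (omega (nca f₀) x) ≠ 0 := right_ne_zero_of_mul hK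
    have hx1 : x.right = 1 := by
      by_contra hne
      apply hE1
      rw [hbc]
      unfold EX
      rw [if_neg hne, red_zero]
    have h3 := ho1
    rw [red_omega_nca hZ f₀ hf0 x hx1] at h3
    obtain ⟨L, -, hL⟩ := Finset.exists_ne_zero_of_sum_ne_zero h3
    obtain ⟨y, hyL⟩ : ∃ y : A → G, y = rep L := ⟨_, rfl⟩
    rw [← hyL] at hL
    have hxy : IsConj x (⟨y, 1⟩ : Wr G A A) := by
      by_contra hne
      apply left_ne_zero_of_mul hL
      unfold indY
      rw [if_neg hne, red_zero]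
    have hoy : ∀ ω, omega (f₀ ω) (y ω) ∉ O.nonunits := by
      intro ω hcon
      exact (Finset.prod_ne_zero_iff.1 (right_ne_zero_of_mul hL)) ω (Finset.mem_univ ω)
        (red_eq_zero hcon)
    choose g hg using fun ω => ((hM G p O hp (β ω) (hB ω)).2 D (hD ω)).2 (y ω) (f₀ ω) (h0 ω) (hoy ω)
    let x' : Wr G A A := ⟨fun ω => (g ω)⁻¹ * y ω * g ω, 1⟩
    have hx' : x'.right = 1 := rfl
    have hxx : IsConj x x' := by
      refine hxy.trans ?_
      rw [cl1 _ _ rfl]
      refine ⟨rfl, 1, fun ω => isConj_iff.2 ⟨(g ω)⁻¹, ?_⟩⟩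
      show (g ω)⁻¹ * y (1 * ω) * ((g ω)⁻¹)⁻¹ = (g ω)⁻¹ * y ω * g ω
      rw [inv_inv, one_mul]
    have hE2 : red O (blockCoeff (FX β) x') ≠ 0 := by
      rw [← hEcl.isConj hxx]
      exact hE1
    have ho2 : red O (omega (nca f₀) x') ≠ 0 := by
      rw [← hi0.omega_congr hxx]
      exact ho1
    have hDx : ∀ ω, ∀ d ∈ D, Commute d (x'.left ω) := by
      intro ω d hd
      have h4 : g ω * d * (g ω)⁻¹ * y ω = y ω * (g ω * d * (g ω)⁻¹) := hg ω d hd
      show d * ((g ω)⁻¹ * y ω * g ω) = (g ω)⁻¹ * y ω * g ω * d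
      have h5 : d * ((g ω)⁻¹ * y ω * g ω) = (g ω)⁻¹ * (g ω * d * (g ω)⁻¹ * y ω) * g ω := by group
      rw [h5, h4]
      group
    have hRx : ∀ ω, ∀ R : Subgroup G, IsPGroup p R → (∀ r ∈ R, Commute r (x'.left ω)) →
        ∃ g : G, ∀ r ∈ R, g * r * g⁻¹ ∈ D := by
      rw [hbc] at hE2
      unfold EX at hE2
      rw [if_pos hx', red_sum _ _ fun a _ => prod_mem fun ω _ => blockCoeff_mem (hB ω) _] at hE2
      obtain ⟨a, -, ha⟩ := Finset.exists_ne_zero_of_sum_ne_zero hE2
      rw [red_prod _ _ fun ω _ => blockCoeff_mem (hB ω) _] at ha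
      intro ω R hR hRc
      have h4 := Finset.prod_ne_zero_iff.1 ha (a⁻¹ * ω) (Finset.mem_univ _)
      rw [mul_inv_cancel_left] at h4
      have h5 : blockCoeff (β (a⁻¹ * ω)) (x'.left ω) ∉ O.nonunits := fun h => h4 (red_eq_zero h)
      exact ((hM G p O hp (β (a⁻¹ * ω)) (hB _)).2 D (hD _)).1 (x'.left ω) h5 R hR hRc
    have hDp : IsPGroup p D := by
      obtain ⟨z, ⟨P, hP⟩, -⟩ := hD 1
      rw [hP]
      exact P.isPGroup'.map _
    have hAx : ¬ p ∣ Nat.card (Ax x') := by
      intro h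
      apply hE2
      rw [hbc]
      exact red_EX_zero hp β hB x' hx' h
    refine ⟨x', sylow_Da x' hx' D hDp hDx hRx hAx, ?_, ?_⟩
    · intro χ hχ
      rw [← red_eq_zero_iff ((hFX χ hχ).omega_mem O _), hred χ hχ]
      exact ho2
    · rw [← red_eq_zero_iff (hEm _)]
      exact hE2
  · intro χ hχ
    constructor
    · intro x hx
      obtain ⟨f, hf, rfl⟩ := hχ
      unfold omega
      rw [nca_off f x hx, mul_zero, zero_div]
    · rintro x hx f hf rfl
      rw [omega_nca f (fun ω => hβ ω _ (hf ω)) x hx, finsum_eq_sum_of_fintype]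
      unfold Om
      rw [Finset.sum_div]
      have h1 : ∀ y : A → G, indY x y * prf f y / prf f 1 =
          if IsConj x (⟨y, 1⟩ : Wr G A A) then prf f y / prf f 1 else 0 := by
        intro y
        unfold indY
        split_ifs
        · rw [one_mul]
        · rw [zero_mul, zero_div]
      rw [Finset.sum_congr rfl fun y _ => h1 y, ← Finset.sum_filter]
      exact (Finset.sum_subtype _ (fun y => by
        rw [Finset.mem_filter]
        exact ⟨fun h => h.2, fun h => ⟨Finset.mem_univ _, h⟩⟩) _)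

end Pool.Agent.Q210.RB
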