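import Pool.Agent.Q210.RB.Base

/-!
# The normaliser of a product subgroup of the base group of a regular wreath product
-/

set_option autoImplicit false

open scoped Classical

noncomputable section

namespace Pool.Agent.Q210.RB

open Pool.Agent.H254R3.IN hiding NN
open Pool.Agent.Q17.WR
open Pool.Agent.Q17.DC
open Pool.Agent.Q17.AM
open Pool.Agent.Q17.RB

variable {G A : Type} [Group G] [Group A]

/-- the element of the base group with all components `1` but one -/
def sgl (ω₀ : A) (g : G) : Wr G A A := ⟨fun ω => if ω = ω₀ then g else 1, 1⟩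

theorem mem_norm_Da (D : Subgroup G) (x : Wr G A A) :
    x ∈ NN (Da A D) ↔ ∀ ω, x.left ω ∈ NN D := by
  rw [Subgroup.mem_normalizer_iff]
  constructor
  · intro h ω
    rw [Subgroup.mem_normalizer_iff]
    intro g
    have h1 := h (sgl (x.right⁻¹ * ω) g)
    have h2 : sgl (A := A) (x.right⁻¹ * ω) g ∈ Da A D ↔ g ∈ D := by
      rw [mem_Da]
      constructor
      · intro hh
        have := hh.2 (x.right⁻¹ * ω)
        simpa [sgl] using this
      · intro hg
        refine ⟨rfl, fun ω' => ?_⟩
        simp only [sgl]
        split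
        · exact hg
        · exact D.one_mem
    have h3 : x * sgl (A := A) (x.right⁻¹ * ω) g * x⁻¹ ∈ Da A D ↔
        x.left ω * g * (x.left ω)⁻¹ ∈ D := by
      rw [mem_Da]
      constructor
      · intro hh
        have := hh.2 ω
        rw [cj_lf _ _ rfl] at this
        simpa [sgl] using this
      · intro hg
        refine ⟨by rw [cj_rt1]; rfl, fun ω' => ?_⟩
        rw [cj_lf _ _ rfl]
        simp only [sgl]
        split
        · rename_i he
          rw [mul_left_cancel he]
          exact hg
        · simp [D.one_mem]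
    change g ∈ D ↔ x.left ω * g * (x.left ω)⁻¹ ∈ D
    rw [← h2, ← h3]
    exact h1
  · intro h y
    change y ∈ Da A D ↔ x * y * x⁻¹ ∈ Da A D
    rw [mem_Da, mem_Da, cj_rt1]
    refine and_congr_right fun hy => ?_
    have key : ∀ ω, x.left ω * y.left (x.right⁻¹ * ω) * (x.left ω)⁻¹ ∈ D ↔
        y.left (x.right⁻¹ * ω) ∈ D := fun ω =>
      ((Subgroup.mem_normalizer_iff.mp (h ω)) (y.left (x.right⁻¹ * ω))).symm
    constructor
    · intro hh ω
      rw [cj_lf _ _ hy, key]
      exact hh _
    · intro hh ω
      have := hh (x.right * ω)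
      rw [cj_lf _ _ hy, key, inv_mul_cancel_left] at this
      exact this

/-- JOB TRA -/
theorem t_TRA : Pool.Agent.Q17.RB.S_TRA := by
  intro G A _ _ D
  refine ⟨{ toFun := fun x => ⟨⟨fun ω => (x.left ω : G), x.right⟩,
              (mem_norm_Da D _).mpr fun ω => (x.left ω).2⟩
            invFun := fun y => ⟨fun ω => ⟨y.1.left ω, (mem_norm_Da D _).mp y.2 ω⟩, y.1.right⟩
            left_inv := fun x => rfl
            right_inv := fun y => rfl
            map_mul' := ?_ }, fun x => rfl, fun x ω => rfl⟩
  intro x y
  apply Subtype.ext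
  apply SemidirectProduct.ext
  · funext ω
    rfl
  · rfl

end Pool.Agent.Q210.RB
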