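import Pool.Agent.Q17.RB.Stm

/-!
# The regular wreath product of a group with a finite group: basic computations
-/

set_option autoImplicit false

open scoped Classical

noncomputable section

namespace Pool.Agent.Q210.RB

open Pool.Agent.H254R3.IN hiding NN
open Pool.Agent.Q17.WR
open Pool.Agent.Q17.DC
open Pool.Agent.Q17.AM
open Pool.Agent.Q17.RB

variable {G A : Type} [Group G] [Group A]

theorem mul_lf (x y : Wr G A A) (ω : A) :
    (x * y).left ω = x.left ω * y.left (x.right⁻¹ * ω) := rfl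

theorem inv_lf (x : Wr G A A) (ω : A) : (x⁻¹).left ω = (x.left (x.right * ω))⁻¹ := by
  have h : (x⁻¹).left ω = (x.left ((x.right⁻¹)⁻¹ * ω))⁻¹ := rfl
  rw [h, inv_inv]

theorem cj_rt (z x : Wr G A A) : (z * x * z⁻¹).right = z.right * x.right * z.right⁻¹ := rfl

theorem cj_rt1 (z x : Wr G A A) : (z * x * z⁻¹).right = 1 ↔ x.right = 1 := by
  rw [cj_rt]
  constructor
  · intro h
    rw [mul_inv_eq_one] at h
    exact mul_eq_left.1 h
  · intro h
    rw [h, mul_one, mul_inv_cancel]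

/-- conjugates of elements of the base group -/
theorem cj_lf (z x : Wr G A A) (hx : x.right = 1) (ω : A) : (z * x * z⁻¹).left ω =
    z.left ω * x.left (z.right⁻¹ * ω) * (z.left ω)⁻¹ := by
  rw [mul_lf, inv_lf, mul_lf]
  have h : z.right * ((z * x).right⁻¹ * ω) = ω := by
    show z.right * ((z.right * x.right)⁻¹ * ω) = _
    rw [hx, mul_one, mul_inv_cancel_left]
  rw [h]

theorem cl1 (x y : Wr G A A) (hx : x.right = 1) : IsConj x y ↔
    y.right = 1 ∧ ∃ a : A, ∀ ω, IsConj (x.left (a * ω)) (y.left ω) := by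
  rw [isConj_iff]
  constructor
  · rintro ⟨z, rfl⟩
    refine ⟨(cj_rt1 z x).2 hx, z.right⁻¹, fun ω => ?_⟩
    rw [cj_lf z x hx, isConj_iff]
    exact ⟨z.left ω, rfl⟩
  · rintro ⟨hy, a, ha⟩
    choose c hc using fun ω => isConj_iff.1 (ha ω)
    refine ⟨⟨c, a⁻¹⟩, ?_⟩
    apply SemidirectProduct.ext
    · funext ω
      rw [cj_lf _ x hx]
      show c ω * x.left ((a⁻¹)⁻¹ * ω) * (c ω)⁻¹ = y.left ω
      rw [inv_inv]
      exact hc ω
    · rw [hy, cj_rt1, hx]

theorem mem_Da (D : Subgroup G) (x : Wr G A A) : x ∈ Da A D ↔ x.right = 1 ∧ ∀ ω, x.left ω ∈ D :=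
  Iff.rfl

end Pool.Agent.Q210.RB
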